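import Mathlib

/-! Affine charts of complex schemes. -/

set_option linter.unusedVariables false
set_option linter.unusedSectionVars false
set_option linter.style.haveILetI false

namespace Pool.Agent.P.MP_824f38_ag.F

open AlgebraicGeometry CategoryTheory TopologicalSpace

variable {Y : Scheme.{0}} {f : Y ⟶ Spec (CommRingCat.of ℂ)} {R : Type} [CommRing R] [Algebra ℂ R]

theorem chart_ft [LocallyOfFiniteType f] (j : Spec (CommRingCat.of R) ⟶ Y) [IsOpenImmersion j]
    (h : j ≫ f = Spec.map (CommRingCat.ofHom (algebraMap ℂ R))) : Algebra.FiniteType ℂ R := by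
  have : LocallyOfFiniteType (Spec.map (CommRingCat.ofHom (algebraMap ℂ R))) := by
    rw [← h]; infer_instance
  exact RingHom.finiteType_algebraMap.1 (HasRingHomProperty.Spec_iff.1 this)

theorem spec_ft [Algebra.FiniteType ℂ R] :
    LocallyOfFiniteType (Spec.map (CommRingCat.ofHom (algebraMap ℂ R))) :=
  HasRingHomProperty.Spec_iff.2 (RingHom.finiteType_algebraMap.2 inferInstance)

theorem spec_dim (R : Type) [CommRing R] :
    topologicalKrullDim (Spec (CommRingCat.of R)) = ringKrullDim R :=
  PrimeSpectrum.topologicalKrullDim_eq_ringKrullDim R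

theorem chart_dim (j : Spec (CommRingCat.of R) ⟶ Y) [IsOpenImmersion j] :
    ringKrullDim R ≤ topologicalKrullDim Y :=
  spec_dim R ▸ j.isOpenEmbedding.isInducing.topologicalKrullDim_le

theorem exists_chart (f : Y ⟶ Spec (CommRingCat.of ℂ)) {n : ℕ} (h : topologicalKrullDim Y = n) :
    ∃ (R : Type) (_ : CommRing R) (_ : Algebra ℂ R) (j : Spec (CommRingCat.of R) ⟶ Y),
      IsOpenImmersion j ∧ j ≫ f = Spec.map (CommRingCat.ofHom (algebraMap ℂ R)) ∧
        ringKrullDim R = n := by
  obtain ⟨l, hl⟩ := Order.le_krullDim_iff.1 h.ge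
  obtain ⟨y, hy⟩ := l.head.isIrreducible.nonempty
  obtain ⟨R, j, hj, z, rfl⟩ := Y.exists_Spec_apply_eq y
  letI : Algebra ℂ R := (Spec.preimage (j ≫ f)).hom.toAlgebra
  refine ⟨R, inferInstance, inferInstance, j, hj, (Spec.map_preimage _).symm,
    le_antisymm (h ▸ chart_dim (R := R) j) ?_⟩
  let e := IrreducibleCloseds.orderIsoOfIsOpenEmbedding j j.isOpenEmbedding
  have h1 := j.isOpenEmbedding.coheight_map (e.symm ⟨l.head, z, hy⟩)
  have h2 : IrreducibleCloseds.map j j.isOpenEmbedding.continuous (e.symm ⟨l.head, z, hy⟩) =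
      l.head := congrArg Subtype.val (e.apply_symm_apply ⟨l.head, z, hy⟩)
  have h3 := Order.length_le_coheight_head (p := l)
  rw [hl, ← h2, h1] at h3
  exact ((WithBot.coe_le_coe.2 h3).trans (Order.coheight_le_krullDim _)).trans (spec_dim R).le

theorem open_loc {R' : Type} [CommRing R'] (ψ : R →+* R')
    [IsOpenImmersion (Spec.map (CommRingCat.ofHom ψ))] (𝔮 : Ideal R') [𝔮.IsPrime] :
    ∃ g : R, ψ g ∉ 𝔮 ∧ ∃ e : Localization.Away g ≃+* Localization.Away (ψ g),
      ∀ r, e (algebraMap R _ r) = algebraMap R' _ (ψ r) := by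
  let j := Spec.map (CommRingCat.ofHom ψ)
  obtain ⟨_, ⟨g, rfl⟩, h1, h2⟩ :=
    PrimeSpectrum.isTopologicalBasis_basic_opens.exists_subset_of_mem_open (u := Set.range j)
      (a := j (⟨𝔮, inferInstance⟩ : PrimeSpectrum R')) ⟨_, rfl⟩ j.isOpenEmbedding.isOpen_range
  let a := Spec.map (CommRingCat.ofHom (algebraMap R' (Localization.Away (ψ g)))) ≫ j
  let b := Spec.map (CommRingCat.ofHom (algebraMap R (Localization.Away g)))
  have hab : Set.range a = Set.range b := by
    have e1 : Set.range b = (PrimeSpectrum.basicOpen g).1 :=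
      PrimeSpectrum.localization_away_comap_range _ g
    have e2 : Set.range (Spec.map (CommRingCat.ofHom (algebraMap R' (Localization.Away (ψ g))))) =
        j ⁻¹' (PrimeSpectrum.basicOpen g).1 := PrimeSpectrum.localization_away_comap_range _ (ψ g)
    have e3 : Set.range a = j '' Set.range
        (Spec.map (CommRingCat.ofHom (algebraMap R' (Localization.Away (ψ g))))) :=
      Set.range_comp j _
    exact e3.trans ((congrArg _ e2).trans ((Set.image_preimage_eq_of_subset h2).trans e1.symm))
  let i := IsOpenImmersion.isoOfRangeEq a b hab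
  have hi : i.hom ≫ b = a := IsOpenImmersion.isoOfRangeEq_hom_fac a b hab
  let φ := Spec.preimage i.hom
  haveI : IsIso (Spec.map φ) := by rw [Spec.map_preimage]; infer_instance
  refine ⟨g, h1, RingEquiv.ofBijective φ.hom (isIso_SpecMap_iff.1 inferInstance), fun r => ?_⟩
  rw [← Spec.map_preimage i.hom, ← Spec.map_comp] at hi
  exact DFunLike.congr_fun (congrArg CommRingCat.Hom.hom
    (Spec.map_injective (hi.trans (Spec.map_comp _ _).symm))) r

end Pool.Agent.P.MP_824f38_ag.F
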