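import Pool.Agent.P.MP_824f38_ag.N.MModel
import Pool.Agent.P.MP_824f38_ag.N.ADev
import Pool.Agent.P.MP_824f38_ag.N.SZar
import Pool.Agent.P.MP_824f38_ag.H.HyperPi

/-! Every finitely generated complex algebra has a smooth cover to which all points with values
in root closed valuation rings lift. -/

set_option linter.unusedVariables false
set_option linter.unusedSectionVars false
set_option linter.style.haveILetI false

namespace Pool.Agent.P.MP_824f38_ag.F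

open N

/-- smooth algebras under `A` -/
structure Sm (A : Type) [CommRing A] [Algebra ℂ A] : Type 1 where
  B : Type
  [ring : CommRing B]
  [alg : Algebra ℂ B]
  smooth : Algebra.Smooth ℂ B
  φ : A →ₐ[ℂ] B

attribute [instance] Sm.ring Sm.alg

variable {A : Type} [CommRing A] [Algebra ℂ A]

/-- the point lifts -/
def Sm.Lifts (S : Sm A) {V : Type} [CommRing V] [Algebra ℂ V] (y : A →ₐ[ℂ] V) : Prop :=
  ∃ z : S.B →ₐ[ℂ] V, z.comp S.φ = y

theorem exists_pi {α : Type} [Finite α] (S : α → Sm A) : ∃ T : Sm A, ∀ (V : Type) [CommRing V]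
    [Algebra ℂ V] (y : A →ₐ[ℂ] V) (a : α), (S a).Lifts y → T.Lifts y := by
  refine ⟨⟨∀ a, (S a).B, DB.pi_smooth _ fun a => (S a).smooth, AlgHom.pi fun a => (S a).φ⟩, ?_⟩
  rintro V _ _ _ a ⟨z, rfl⟩
  exact ⟨z.comp (Pi.evalAlgHom ℂ (fun a => (S a).B) a), rfl⟩

theorem exists_cover (A : Type) [CommRing A] [Algebra ℂ A] [Algebra.FiniteType ℂ A] :
    ∃ S : Sm A, ∀ (V : Type) [CommRing V] [IsDomain V] [ValuationRing V] [Algebra ℂ V],
      RootClosed V → ∀ y : A →ₐ[ℂ] V, S.Lifts y := by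
  haveI : IsNoetherianRing A := Algebra.FiniteType.isNoetherianRing ℂ A
  suffices H : ∀ 𝔞 𝔥 : Ideal A, ∃ S : Sm A, ∀ (V : Type) [CommRing V] [IsDomain V]
      [ValuationRing V] [Algebra ℂ V], RootClosed V → ∀ y : A →ₐ[ℂ] V, (∀ a ∈ 𝔞, y a = 0) →
        (∃ a ∈ 𝔥, y a ≠ 0) → S.Lifts y by
    obtain ⟨S, h⟩ := H ⊥ ⊤
    exact ⟨S, fun V _ _ _ _ hV y => h V hV y
      (fun a ha => by rw [(Submodule.mem_bot _).1 ha, map_zero]) ⟨1, trivial, by simp⟩⟩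
  refine devissage _ (fun 𝔞 𝔥 h => ?_) ?_ (fun 𝔞 𝔥 h𝔞 h => ?_)
  · obtain ⟨T, -⟩ := exists_pi (A := A) (α := Empty) Empty.elim
    exact ⟨T, fun V _ _ _ _ _ y h1 ⟨a, ha, h2⟩ => absurd (h1 a (h ha)) h2⟩
  · rintro 𝔞 𝔥 𝔥' ⟨S1, h1⟩ ⟨S2, h2⟩
    obtain ⟨T, hT⟩ := exists_pi (fun b : Bool => bif b then S1 else S2)
    refine ⟨T, fun V _ _ _ _ hV y h3 ⟨a, ha, h4⟩ => ?_⟩
    by_cases h5 : ∃ b ∈ 𝔥', y b ≠ 0
    · obtain ⟨b, hb, h5⟩ := h5
      exact hT V y true (h1 V hV y h3 ⟨a * b, Ideal.mul_mem_mul ha hb, by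
        rw [map_mul]; exact mul_ne_zero h4 h5⟩)
    · push Not at h5
      refine hT V y false (h2 V hV y (fun b hb => ?_) ⟨a, ha, h4⟩)
      obtain ⟨b1, k1, b2, k2, rfl⟩ := Submodule.mem_sup.1 hb
      rw [map_add, h3 b1 k1, h5 b2 k2, add_zero]
  · let π := Ideal.Quotient.mkₐ ℂ 𝔞
    have hπ : Function.Surjective π := Ideal.Quotient.mkₐ_surjective ℂ 𝔞
    haveI : Algebra.FiniteType ℂ (A ⧸ 𝔞) := Algebra.FiniteType.of_surjective π hπ
    obtain ⟨g, n, hg, -, M, -⟩ := GM.model (R := A ⧸ 𝔞) (τ := Unit) (fun _ => 1)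
      ⟨(), one_ne_zero⟩ (𝔥 := ⊤) top_ne_bot
    obtain ⟨g, rfl⟩ := hπ g
    obtain ⟨T, hT⟩ := exists_pi (A := A) fun i : M.κ => ⟨Localization.Away (M.g i),
      haveI := ft_away (M.g i)
      (M.reg_away fun w hw => ⟨i, hw⟩).smooth, ((toAway (M.g i)).comp M.ι).comp π⟩
    refine ⟨Ideal.span {g}, fun hle => hg (Ideal.Quotient.eq_zero_iff_mem.2
      (hle (Ideal.mem_span_singleton_self g))), T, fun V _ _ _ _ hV y h1 ⟨a, ha, h2⟩ => ?_⟩
    have h3 : y g ≠ 0 := fun h0 => by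
      have hle : 𝔥 * Ideal.span {g} ≤ Ideal.span {g} := Ideal.mul_le_right
      obtain ⟨b, hb⟩ := Ideal.mem_span_singleton'.1 (hle ha)
      exact h2 (by rw [← hb, map_mul, h0, mul_zero])
    obtain ⟨φ, e, -, i, hi⟩ := M.prop V hV (Ideal.Quotient.liftₐ 𝔞 y h1) ⟨1 * (π g * 1),
      Ideal.mul_mem_mul trivial (Ideal.mul_mem_mul (Ideal.mem_span_singleton_self _)
        (Ideal.subset_span ⟨(), rfl⟩)), by rw [one_mul, mul_one]; exact h3⟩
    obtain ⟨ψ, e'⟩ := aw_lift φ hi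
    refine hT V y i ⟨ψ, ?_⟩
    change ((ψ.comp (toAway _)).comp M.ι).comp π = y
    rw [e', e]
    exact Ideal.Quotient.liftₐ_comp 𝔞 y h1

end Pool.Agent.P.MP_824f38_ag.F
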