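import Pool.Agent.P.MP_824f38_ag.H.Defs

/-!
The cohomology sheaves of the Du Bois complexes of a complex variety, read on affine charts
through smooth affine hypercoverings.
-/

namespace Pool.Agent.P.MP_824f38_ag

open AlgebraicGeometry CategoryTheory

/-- Descent on the stalks at the valuation rings `V` over the complex numbers in which every
element has roots of all orders (among them the points of the h-topology, the valuation rings
with algebraically closed field of fractions): for every `V`-point `x` of `Spec R`, the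
semi-simplicial set of the `V`-points of the `X_k` over `x` has the rational cohomology of a
point. -/
def Hyper.DescentR {R : Type} [CommRing R] [Algebra ℂ R] (X : Hyper R) : Prop :=
  ∀ (V : Type) [CommRing V] [IsDomain V] [ValuationRing V] [Algebra ℂ V],
    (∀ (v : V) (M : ℕ), 0 < M → ∃ z : V, z ^ M = v) → ∀ x : R →ₐ[ℂ] V,
    (∃ y : X.B 0 →ₐ[ℂ] V, y.comp (X.str 0) = x) ∧
    (∀ h : (X.B 0 →ₐ[ℂ] V) → ℚ, (∀ y, y.comp (X.str 1) = x → X.cob 0 h y = 0) →
      ∃ c : ℚ, ∀ y, y.comp (X.str 0) = x → h y = c) ∧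
    ∀ (k : ℕ) (h : (X.B (k + 1) →ₐ[ℂ] V) → ℚ),
      (∀ y, y.comp (X.str (k + 2)) = x → X.cob (k + 1) h y = 0) →
      ∃ g : (X.B k →ₐ[ℂ] V) → ℚ, ∀ y, y.comp (X.str (k + 1)) = x → h y = X.cob k g y

/-- The sheaf `H^q` of the `p`-th Du Bois complex of the complex scheme `f : Y ⟶ Spec ℂ` is not
zero: on some affine open chart `Spec R ⟶ Y` the `q`-th cohomology of the complex of `p`-forms of
a smooth affine hypercovering with descent is not zero. -/
def DBNonzero {Y : Scheme.{0}} (f : Y ⟶ Spec (CommRingCat.of ℂ)) (p q : ℕ) : Prop :=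
  ∃ (R : Type) (_ : CommRing R) (_ : Algebra ℂ R) (j : Spec (CommRingCat.of R) ⟶ Y),
    IsOpenImmersion j ∧ j ≫ f = Spec.map (CommRingCat.ofHom (algebraMap ℂ R)) ∧
      ∃ X : Hyper R, X.DescentR ∧ X.HNonzero p q

end Pool.Agent.P.MP_824f38_ag
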