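import Pool.Agent.P.MP_824f38_ag.F.Cover
import Pool.Agent.P.MP_824f38_ag.F.Defs

/-! Every finitely generated complex algebra has a smooth hypercovering with descent. -/

set_option linter.unusedVariables false
set_option linter.unusedSectionVars false
set_option linter.style.haveILetI false

namespace Pool.Agent.P.MP_824f38_ag.F

open N MvPolynomial

/-- a family of maps whose faces match -/
def Match {A B V : Type} [CommRing A] [Algebra ℂ A] [CommRing B] [Algebra ℂ B] [CommRing V]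
    [Algebra ℂ V] {n : ℕ} (d : Fin (n + 1) → (A →ₐ[ℂ] B)) (y : Fin (n + 2) → (B →ₐ[ℂ] V)) : Prop :=
  ∀ i j : Fin (n + 1), i ≤ j → (y j.succ).comp (d i) = (y i.castSucc).comp (d j)

/-- two consecutive terms -/
structure St (n : ℕ) : Type 1 where
  A : Type
  B : Type
  [ringA : CommRing A]
  [algA : Algebra ℂ A]
  [ringB : CommRing B]
  [algB : Algebra ℂ B]
  smooth : Algebra.Smooth ℂ B
  d : Fin (n + 1) → (A →ₐ[ℂ] B)

attribute [instance] St.ringA St.algA St.ringB St.algB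

/-- the next term -/
structure Nx {n : ℕ} (s : St n) : Type 1 where
  C : Type
  [ring : CommRing C]
  [alg : Algebra ℂ C]
  smooth : Algebra.Smooth ℂ C
  e : Fin (n + 2) → (s.B →ₐ[ℂ] C)
  rel : Match s.d e
  fill : ∀ (V : Type) [CommRing V] [IsDomain V] [ValuationRing V] [Algebra ℂ V], RootClosed V →
    ∀ y : Fin (n + 2) → (s.B →ₐ[ℂ] V), Match s.d y → ∃ z : C →ₐ[ℂ] V, ∀ i, z.comp (e i) = y i

attribute [instance] Nx.ring Nx.alg

theorem nonempty_nx {n : ℕ} (s : St n) : Nonempty (Nx s) := by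
  haveI := s.smooth
  obtain ⟨N, π, hπ⟩ := Algebra.FiniteType.iff_quotient_mvPolynomial''.1
    (inferInstance : Algebra.FiniteType ℂ s.B)
  let ι : Fin (n + 2) → (MvPolynomial (Fin N) ℂ →ₐ[ℂ] MvPolynomial (Fin (n + 2) × Fin N) ℂ) :=
    fun i => rename fun k => (i, k)
  let J : Ideal (MvPolynomial (Fin (n + 2) × Fin N) ℂ) := Ideal.span
    ({x | ∃ i f, π f = 0 ∧ x = ι i f} ∪ {x | ∃ (i j : Fin (n + 1)) (a : s.A), i ≤ j ∧
      ∃ f g, π f = s.d i a ∧ π g = s.d j a ∧ x = ι j.succ f - ι i.castSucc g})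
  let q := Ideal.Quotient.mkₐ ℂ J
  haveI : Algebra.FiniteType ℂ (_ ⧸ J) :=
    Algebra.FiniteType.of_surjective q (Ideal.Quotient.mkₐ_surjective ℂ J)
  let e : Fin (n + 2) → (s.B →ₐ[ℂ] _ ⧸ J) := fun i => AlgHom.liftOfSurjective π hπ (q.comp (ι i))
    fun f hf => Ideal.Quotient.eq_zero_iff_mem.2 (Ideal.subset_span (Or.inl ⟨i, f, hf, rfl⟩))
  have he : ∀ i f, e i (π f) = q (ι i f) := fun i f => AlgHom.liftOfSurjective_apply _ _ _ _ f
  obtain ⟨S, hS⟩ := exists_cover (_ ⧸ J)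
  refine ⟨⟨S.B, S.smooth, fun i => S.φ.comp (e i), fun i j h => AlgHom.ext fun a => ?_,
    fun V _ _ _ _ hV y hy => ?_⟩⟩
  · obtain ⟨f, hf⟩ := hπ (s.d i a)
    obtain ⟨g, hg⟩ := hπ (s.d j a)
    change S.φ (e j.succ (s.d i a)) = S.φ (e i.castSucc (s.d j a))
    rw [← hf, ← hg, he, he]
    exact congrArg S.φ (Ideal.Quotient.eq.2
      (Ideal.subset_span (Or.inr ⟨i, j, a, h, f, g, hf, hg, rfl⟩)))
  · let w : MvPolynomial (Fin (n + 2) × Fin N) ℂ →ₐ[ℂ] V := aeval fun t => y t.1 (π (X t.2))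
    have hw : ∀ i f, w (ι i f) = y i (π f) := fun i =>
      DFunLike.congr_fun (f := w.comp (ι i)) (g := (y i).comp π)
        (MvPolynomial.algHom_ext fun k => by simp [w, ι])
    have hJ : J ≤ RingHom.ker (w : _ →+* V) := by
      refine Ideal.span_le.2 ?_
      rintro _ (⟨i, f, hf, rfl⟩ | ⟨i, j, a, h, f, g, hf, hg, rfl⟩)
      · exact (hw i f).trans (by rw [hf, map_zero])
      · change w _ = 0
        rw [map_sub, hw, hw, hf, hg]
        exact sub_eq_zero.2 (DFunLike.congr_fun (hy i j h) a)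
    obtain ⟨z, hz⟩ := hS V hV (Ideal.Quotient.liftₐ J w hJ)
    refine ⟨z, fun i => AlgHom.ext fun b => ?_⟩
    obtain ⟨f, rfl⟩ := hπ b
    change (z.comp S.φ) (e i (π f)) = _
    rw [hz, he, ← hw]
    rfl

/-- a choice of the next term -/
noncomputable def St.nx {n : ℕ} (s : St n) : Nx s := Classical.choice (nonempty_nx s)

/-- the tower of terms -/
noncomputable def seq (s : St 0) : ∀ n, St n
  | 0 => s
  | n + 1 => ⟨(seq s n).B, (seq s n).nx.C, (seq s n).nx.smooth, (seq s n).nx.e⟩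

variable {R : Type} [CommRing R] [Algebra ℂ R]

/-- the first two terms -/
@[reducible] def Sm.st (S : Sm R) : St 0 := ⟨R, S.B, S.smooth, fun _ => S.φ⟩

/-- the hypercovering generated by a cover -/
noncomputable def Sm.hyper (S : Sm R) : Hyper R where
  B k := (seq S.st k).B
  smooth k := (seq S.st k).smooth
  aug := S.φ
  d k := (seq S.st k).nx.e
  d_aug := (S.st.nx.rel 0 0 le_rfl).symm
  d_d k i j h := (seq S.st (k + 1)).nx.rel i j h

variable (X : Hyper R) {V : Type} [CommRing V] [Algebra ℂ V] (x : R →ₐ[ℂ] V)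

/-- `s` is a cone operator -/
structure Cone (k : ℕ) (s : (X.B k →ₐ[ℂ] V) → (X.B (k + 1) →ₐ[ℂ] V)) : Prop where
  ne : ∃ y : X.B k →ₐ[ℂ] V, y.comp (X.str k) = x
  face : ∀ y, y.comp (X.str k) = x → (s y).comp (X.d k 0) = y
  mat : ∀ y : X.B (k + 1) →ₐ[ℂ] V, y.comp (X.str (k + 1)) = x →
    Match (X.d k) (Fin.cons y fun i => s (y.comp (X.d k i)))

variable {X x}

theorem face_over {k : ℕ} {y : X.B (k + 1) →ₐ[ℂ] V} (h : y.comp (X.str (k + 1)) = x)
    (i : Fin (k + 2)) : (y.comp (X.d k i)).comp (X.str k) = x := by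
  rw [AlgHom.comp_assoc, d_str, h]

theorem over_of_face {k : ℕ} {z : X.B (k + 1) →ₐ[ℂ] V} {y : X.B k →ₐ[ℂ] V}
    (e : z.comp (X.d k 0) = y) (h : y.comp (X.str k) = x) : z.comp (X.str (k + 1)) = x := by
  rw [← h, ← e]; rfl

theorem cone_step {k : ℕ} (fill : ∀ y : Fin (k + 3) → (X.B (k + 1) →ₐ[ℂ] V), Match (X.d k) y →
      ∃ z : X.B (k + 2) →ₐ[ℂ] V, ∀ i, z.comp (X.d (k + 1) i) = y i)
    {s : (X.B k →ₐ[ℂ] V) → (X.B (k + 1) →ₐ[ℂ] V)} (H : Cone X x k s) :
    ∃ t, Cone X x (k + 1) t ∧ ∀ y, y.comp (X.str (k + 1)) = x →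
      ∀ i, (t y).comp (X.d (k + 1) i.succ) = s (y.comp (X.d k i)) := by
  obtain ⟨y0, h0⟩ := H.ne
  have h1 := over_of_face (H.face y0 h0) h0
  have : ∀ y : X.B (k + 1) →ₐ[ℂ] V, ∃ z : X.B (k + 2) →ₐ[ℂ] V, y.comp (X.str (k + 1)) = x →
      z.comp (X.d (k + 1) 0) = y ∧ ∀ i, z.comp (X.d (k + 1) i.succ) = s (y.comp (X.d k i)) := by
    intro y
    by_cases h : y.comp (X.str (k + 1)) = x
    · obtain ⟨z, hz⟩ := fill _ (H.mat y h)
      exact ⟨z, fun _ => ⟨hz 0, fun i => hz i.succ⟩⟩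
    · exact ⟨(fill _ (H.mat _ h1)).choose, fun h' => absurd h' h⟩
  choose t ht using this
  refine ⟨t, ⟨⟨_, h1⟩, fun y h => (ht y h).1, fun y h i j hij => ?_⟩, fun y h => (ht y h).2⟩
  rw [Fin.cons_succ]
  induction i using Fin.cases with
  | zero => exact (ht _ (face_over h j)).1
  | succ i =>
    induction j using Fin.cases with
    | zero => exact absurd hij (by simp)
    | succ j =>
      rw [← Fin.succ_castSucc, Fin.cons_succ, (ht _ (face_over h _)).2, (ht _ (face_over h _)).2,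
        AlgHom.comp_assoc, AlgHom.comp_assoc, X.d_d k i j (Fin.succ_le_succ_iff.1 hij)]

theorem cone_zero (fill : ∀ y : Fin 2 → (X.B 0 →ₐ[ℂ] V), Match (fun _ : Fin 1 => X.aug) y →
      ∃ z : X.B 1 →ₐ[ℂ] V, ∀ i, z.comp (X.d 0 i) = y i) {v : X.B 0 →ₐ[ℂ] V}
    (hv : v.comp (X.str 0) = x) :
    ∃ t, Cone X x 0 t ∧ ∀ y, y.comp (X.str 0) = x → (t y).comp (X.d 0 1) = v := by
  have hm : ∀ y : X.B 0 →ₐ[ℂ] V, y.comp (X.str 0) = x →
      Match (fun _ : Fin 1 => X.aug) ![y, v] := fun y h i j _ => by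
    rw [Fin.fin_one_eq_zero i, Fin.fin_one_eq_zero j]
    exact hv.trans h.symm
  have : ∀ y : X.B 0 →ₐ[ℂ] V, ∃ z : X.B 1 →ₐ[ℂ] V, y.comp (X.str 0) = x →
      z.comp (X.d 0 0) = y ∧ z.comp (X.d 0 1) = v := by
    intro y
    by_cases h : y.comp (X.str 0) = x
    · obtain ⟨z, hz⟩ := fill _ (hm y h)
      exact ⟨z, fun _ => ⟨hz 0, hz 1⟩⟩
    · exact ⟨(fill _ (hm v hv)).choose, fun h' => absurd h' h⟩
  choose t ht using this
  refine ⟨t, ⟨⟨v, hv⟩, fun y h => (ht y h).1, fun y h i j hij => ?_⟩, fun y h => (ht y h).2⟩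
  rw [Fin.cons_succ]
  induction i using Fin.cases with
  | zero => exact (ht _ (face_over h j)).1
  | succ i =>
    induction j using Fin.cases with
    | zero => exact absurd hij (by simp)
    | succ j =>
      rw [← Fin.succ_castSucc, Fin.cons_succ, Subsingleton.elim i 0, Subsingleton.elim j 0]
      exact (ht _ (face_over h _)).2.trans (ht _ (face_over h _)).2.symm

theorem exists_hyper (R : Type) [CommRing R] [Algebra ℂ R] [Algebra.FiniteType ℂ R] :
    ∃ X : Hyper R, X.DescentR := by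
  obtain ⟨S, hS⟩ := exists_cover R
  refine ⟨S.hyper, fun V _ _ _ _ hV x => ?_⟩
  obtain ⟨v, hv⟩ := hS V hV x
  obtain ⟨t0, h0, h0'⟩ := cone_zero (X := S.hyper) (S.st.nx.fill V hV) hv
  have step := fun k => @cone_step R _ _ S.hyper V _ _ x k ((seq S.st (k + 1)).nx.fill V hV)
  have hk : ∀ k, ∃ s, Cone S.hyper x k s := fun k => by
    induction k with
    | zero => exact ⟨t0, h0⟩
    | succ k ih => exact ih.elim fun s hs => (step k hs).imp fun t ht => ht.1
  refine ⟨⟨v, hv⟩, fun h hh => ⟨h v, fun y hy => ?_⟩, fun k h hh => ?_⟩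
  · have := hh _ (over_of_face (h0.face y hy) hy)
    rw [Hyper.cob, Fin.sum_univ_two, h0.face y hy, h0' y hy] at this
    simpa [sub_eq_zero, ← sub_eq_add_neg] using this
  · obtain ⟨s, hs⟩ := hk k
    obtain ⟨t, ht, ht'⟩ := step k hs
    refine ⟨fun y => h (s y), fun y hy => ?_⟩
    have := hh _ (over_of_face (ht.face y hy) hy)
    rw [Hyper.cob, Fin.sum_univ_succ, ht.face y hy] at this
    simp only [ht' y hy, Fin.val_succ, pow_succ, mul_neg, mul_one, neg_mul, Finset.sum_neg_distrib,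
      Fin.val_zero, pow_zero, one_mul, ← sub_eq_add_neg, sub_eq_zero] at this
    exact this

end Pool.Agent.P.MP_824f38_ag.F
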