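import Pool.Agent.P.MP_824f38_ag.F.Defs
import Pool.Agent.P.MP_824f38_ag.N.SZar

/-! Localisation of hypercoverings. -/

set_option linter.unusedVariables false
set_option linter.unusedSectionVars false
set_option linter.style.haveILetI false

namespace Pool.Agent.P.MP_824f38_ag.F

open N

variable {R : Type} [CommRing R] [Algebra ℂ R] (X : Hyper R) (g : R)

/-- the localised terms -/
abbrev LB (k : ℕ) : Type := Localization.Away (X.str k g)

theorem d_str_apply (k : ℕ) (i : Fin (k + 2)) (r : R) : X.d k i (X.str k r) = X.str (k + 1) r :=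
  DFunLike.congr_fun (d_str X k i) r

theorem exists_ld (k : ℕ) (i : Fin (k + 2)) : ∃ ψ : LB X g k →ₐ[ℂ] LB X g (k + 1),
    ψ.comp (toAway _) = (toAway _).comp (X.d k i) :=
  aw_lift _ (by rw [AlgHom.comp_apply, d_str_apply]; exact aw_unit _)

/-- the localised face maps -/
noncomputable def ld (k : ℕ) (i : Fin (k + 2)) : LB X g k →ₐ[ℂ] LB X g (k + 1) :=
  (exists_ld X g k i).choose

theorem ld_comp (k : ℕ) (i : Fin (k + 2)) :
    (ld X g k i).comp (toAway _) = (toAway _).comp (X.d k i) := (exists_ld X g k i).choose_spec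

variable (A : Type) [CommRing A] [Algebra ℂ A] [Algebra R A] [IsScalarTower ℂ R A]
  [IsLocalization.Away g A]

/-- the localisation map -/
abbrev toA : R →ₐ[ℂ] A := IsScalarTower.toAlgHom ℂ R A

include g in
theorem loc_ext {B : Type} [CommRing B] [Algebra ℂ B] {ψ ψ' : A →ₐ[ℂ] B}
    (e : ψ.comp (toA A) = ψ'.comp (toA (R := R) A)) : ψ = ψ' :=
  AlgHom.coe_ringHom_injective (IsLocalization.ringHom_ext (Submonoid.powers g)
    (RingHom.ext fun a => DFunLike.congr_fun e a))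

theorem exists_laug : ∃ ψ : A →ₐ[ℂ] LB X g 0, ψ.comp (toA A) = (toAway _).comp X.aug :=
  ⟨IsLocalization.Away.liftAlgHom g (f := (toAway _).comp X.aug) (aw_unit (X.str 0 g)),
    AlgHom.ext fun a => IsLocalization.Away.lift_eq (S := A) g
      (g := (((toAway _).comp X.aug : R →ₐ[ℂ] LB X g 0) : R →+* LB X g 0)) (aw_unit (X.str 0 g)) a⟩

/-- the localised hypercovering -/
noncomputable def loc : Hyper A where
  B := LB X g
  smooth k :=
    haveI := X.smooth k
    haveI : Algebra.Smooth (X.B k) (LB X g k) := Algebra.Smooth.of_isLocalization_Away (X.str k g)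
    Algebra.Smooth.comp ℂ (X.B k) _
  aug := (exists_laug X g A).choose
  d := ld X g
  d_aug := loc_ext g A (by
    rw [AlgHom.comp_assoc, AlgHom.comp_assoc, (exists_laug X g A).choose_spec,
      ← AlgHom.comp_assoc, ← AlgHom.comp_assoc, ld_comp, ld_comp, AlgHom.comp_assoc,
      AlgHom.comp_assoc, X.d_aug])
  d_d k i j h := aw_ext (by
    rw [AlgHom.comp_assoc, AlgHom.comp_assoc, ld_comp, ld_comp, ← AlgHom.comp_assoc,
      ← AlgHom.comp_assoc, ld_comp, ld_comp, AlgHom.comp_assoc, AlgHom.comp_assoc, X.d_d k i j h])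

/-- the map to the localised terms -/
noncomputable def lm (k : ℕ) : X.B k →ₐ[ℂ] (loc X g A).B k := toAway (X.str k g)

theorem d_lm (k : ℕ) (i : Fin (k + 2)) :
    ((loc X g A).d k i).comp (lm X g A k) = (lm X g A (k + 1)).comp (X.d k i) := ld_comp X g k i

theorem str_lm : ∀ k, ((loc X g A).str k).comp (toA A) = (lm X g A k).comp (X.str k)
  | 0 => (exists_laug X g A).choose_spec
  | k + 1 => by
    change (((loc X g A).d k 0).comp ((loc X g A).str k)).comp _ = _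
    rw [AlgHom.comp_assoc, str_lm k, ← AlgHom.comp_assoc, d_lm]
    rfl

section Points

variable {X g A} {V : Type} [CommRing V] [Algebra ℂ V] {x : A →ₐ[ℂ] V}

theorem over_iff {k : ℕ} {y : (loc X g A).B k →ₐ[ℂ] V} : y.comp ((loc X g A).str k) = x ↔
    (y.comp (lm X g A k)).comp (X.str k) = x.comp (toA A) := by
  rw [AlgHom.comp_assoc, ← str_lm, ← AlgHom.comp_assoc]
  exact ⟨fun h => by rw [h], loc_ext g A⟩

theorem lift_pt {k : ℕ} {y : X.B k →ₐ[ℂ] V} (h : y.comp (X.str k) = x.comp (toA A)) :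
    ∃ z : (loc X g A).B k →ₐ[ℂ] V, z.comp (lm X g A k) = y :=
  aw_lift y (by
    rw [show y (X.str k g) = x (algebraMap R A g) from DFunLike.congr_fun h g]
    exact (IsLocalization.Away.algebraMap_isUnit g).map x)

open Classical in
/-- extension of functions by zero -/
noncomputable def ex0 {k : ℕ} (h : ((loc X g A).B k →ₐ[ℂ] V) → ℚ) (y : X.B k →ₐ[ℂ] V) : ℚ :=
  if e : ∃ z : (loc X g A).B k →ₐ[ℂ] V, z.comp (lm X g A k) = y then h e.choose else 0

theorem ex0_lm {k : ℕ} (h : ((loc X g A).B k →ₐ[ℂ] V) → ℚ) (z : (loc X g A).B k →ₐ[ℂ] V) :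
    ex0 h (z.comp (lm X g A k)) = h z := by
  have e : ∃ z' : (loc X g A).B k →ₐ[ℂ] V, z'.comp (lm X g A k) = z.comp (lm X g A k) := ⟨z, rfl⟩
  rw [ex0, dif_pos e]
  exact congrArg h (aw_ext e.choose_spec)

theorem cob_lm {k : ℕ} (h : (X.B k →ₐ[ℂ] V) → ℚ) (z : (loc X g A).B (k + 1) →ₐ[ℂ] V) :
    X.cob k h (z.comp (lm X g A (k + 1))) =
      (loc X g A).cob k (fun y => h (y.comp (lm X g A k))) z := by
  simp only [Hyper.cob, AlgHom.comp_assoc, d_lm]

theorem cob_ex0 {k : ℕ} {h : ((loc X g A).B k →ₐ[ℂ] V) → ℚ}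
    (hh : ∀ y, y.comp ((loc X g A).str (k + 1)) = x → (loc X g A).cob k h y = 0) :
    ∀ y, y.comp (X.str (k + 1)) = x.comp (toA A) → X.cob k (ex0 h) y = 0 := fun y hy => by
  obtain ⟨z, rfl⟩ := lift_pt (g := g) hy
  rw [cob_lm]
  simp only [ex0_lm]
  exact hh z (over_iff.2 hy)

end Points

theorem loc_descent (H : X.DescentR) : (loc X g A).DescentR := fun V _ _ _ _ hV x => by
  obtain ⟨⟨y, hy⟩, h1, h2⟩ := H V hV (x.comp (toA A))
  refine ⟨?_, fun h hh => ?_, fun k h hh => ?_⟩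
  · obtain ⟨z, rfl⟩ := lift_pt (g := g) hy
    exact ⟨z, over_iff.2 hy⟩
  · obtain ⟨c, hc⟩ := h1 _ (cob_ex0 hh)
    exact ⟨c, fun z hz => (ex0_lm h z).symm.trans (hc _ (over_iff.1 hz))⟩
  · obtain ⟨c, hc⟩ := h2 k _ (cob_ex0 hh)
    exact ⟨_, fun z hz => (ex0_lm h z).symm.trans ((hc _ (over_iff.1 hz)).trans (cob_lm c z))⟩

theorem delta_smul (k : ℕ) (r : R) (ω : DR (X.B k)) :
    X.delta k (X.str k r • ω) = X.str (k + 1) r • X.delta k ω := by
  simp only [Hyper.delta, altSum, pull_smul, d_str_apply, Finset.smul_sum, mul_smul_comm]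

theorem delta_add (k : ℕ) (ω η : DR (X.B k)) : X.delta k (ω + η) = X.delta k ω + X.delta k η := by
  simp only [Hyper.delta, altSum, map_add, mul_add, Finset.sum_add_distrib]

theorem delta_lm (k : ℕ) (ω : DR (X.B k)) : (loc X g A).delta k (pull (lm X g A k) ω) =
    pull (lm X g A (k + 1)) (X.delta k ω) := by
  simp only [Hyper.delta, altSum, map_sum, map_mul, map_pow, map_neg, map_one, pull_pull, d_lm]

theorem str_alg (k : ℕ) (r : R) :
    (loc X g A).str k (algebraMap R A r) = lm X g A k (X.str k r) :=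
  DFunLike.congr_fun (str_lm X g A k) r

theorem lm_surj {k p : ℕ} {ω : DR ((loc X g A).B k)} (h : ω ∈ Forms _ p) :
    ∃ (n : ℕ) (β : DR (X.B k)), β ∈ Forms _ p ∧
      pull (lm X g A k) β = (loc X g A).str k (algebraMap R A (g ^ n)) • ω := by
  have H := fun ω : DR (LB X g k) => dr_loc_surj (X.str k g) ω
  obtain ⟨n, β, e⟩ := H ω
  refine ⟨n, V.ep p β, V.ep_mem p β, ?_⟩
  rw [← pull_ep, str_alg, map_pow, map_pow]
  exact (congrArg (V.ep p) e).trans ((map_smul _ _ _).trans (congrArg _ (V.ep_of_mem h)))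

theorem lm_ker {k : ℕ} {β : DR (X.B k)} (h : pull (lm X g A k) β = 0) :
    ∃ n : ℕ, X.str k (g ^ n) • β = 0 := by
  have H := @dr_loc_ker _ _ _ (X.str k g) (LB X g k) _ _ _ _ _ β
  obtain ⟨n, e⟩ := H h
  exact ⟨n, by rwa [map_pow]⟩

variable {X}

theorem not_iff {p q : ℕ} : ¬ X.HNonzero p (q + 1) ↔ ∀ ω ∈ Forms (X.B (q + 1)) p,
    X.delta (q + 1) ω = 0 → ∃ η ∈ Forms (X.B q) p, X.delta q η = ω := by
  simp [Hyper.HNonzero, NotExact]

theorem loc_exact {p q : ℕ} (H : ¬ X.HNonzero p (q + 1)) : ¬ (loc X g A).HNonzero p (q + 1) := by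
  rw [not_iff] at H ⊢
  intro ω hω h
  obtain ⟨n, β, hβ, e⟩ := lm_surj X g A hω
  obtain ⟨m, e'⟩ := lm_ker X g A (β := X.delta (q + 1) β) (by
    rw [← delta_lm, e, delta_smul, h, smul_zero])
  obtain ⟨η, hη, e''⟩ := H _ (Submodule.smul_mem _ (X.str (q + 1) (g ^ m)) hβ) (by
    rw [delta_smul, e'])
  obtain ⟨u, hu⟩ := ((IsLocalization.Away.algebraMap_isUnit (S := A) g).pow (m + n)).exists_left_inv
  refine ⟨(loc X g A).str q u • pull (lm X g A q) η, Submodule.smul_mem _ _ (pull_mem _ hη), ?_⟩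
  rw [delta_smul, delta_lm, e'', pull_smul, e, ← str_alg, smul_smul, smul_smul, ← map_mul,
    ← map_mul, map_pow, map_pow, mul_assoc, ← pow_add, hu, map_one, one_smul]

theorem of_loc_exact {p q : ℕ} (H : ¬ (loc X g A).HNonzero p (q + 1)) {ω : DR (X.B (q + 1))}
    (hω : ω ∈ Forms _ p) (h : X.delta (q + 1) ω = 0) :
    ∃ n : ℕ, ∃ η ∈ Forms (X.B q) p, X.delta q η = X.str (q + 1) (g ^ n) • ω := by
  obtain ⟨η, hη, e⟩ := not_iff.1 H _ (pull_mem (lm X g A (q + 1)) hω) (by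
    rw [delta_lm, h, map_zero])
  obtain ⟨n, β, hβ, e'⟩ := lm_surj X g A hη
  obtain ⟨m, e''⟩ := lm_ker X g A (β := X.delta q β - X.str (q + 1) (g ^ n) • ω) (by
    rw [map_sub, ← delta_lm, e', delta_smul, e, pull_smul, str_alg, sub_self])
  refine ⟨m + n, _, Submodule.smul_mem _ (X.str q (g ^ m)) hβ, ?_⟩
  rw [delta_smul, ← sub_eq_zero, pow_add, map_mul, mul_smul, ← smul_sub, e'']

theorem exact_of_loc {p q : ℕ} (H : ∀ 𝔪 : Ideal R, 𝔪.IsMaximal → ∃ g ∉ 𝔪,
    ¬ (loc X g (Localization.Away g)).HNonzero p (q + 1)) : ¬ X.HNonzero p (q + 1) := by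
  rw [not_iff]
  intro ω hω h
  let J : Ideal R :=
    { carrier := {r | ∃ η ∈ Forms (X.B q) p, X.delta q η = X.str (q + 1) r • ω}
      add_mem' := by
        rintro a b ⟨η, h1, h2⟩ ⟨θ, h3, h4⟩
        exact ⟨η + θ, add_mem h1 h3, by rw [delta_add, h2, h4, map_add, add_smul]⟩
      zero_mem' := ⟨0, zero_mem _, by simp [Hyper.delta, altSum]⟩
      smul_mem' := by
        rintro c a ⟨η, h1, h2⟩
        exact ⟨_, Submodule.smul_mem _ (X.str q c) h1, by
          rw [delta_smul, h2, smul_eq_mul, map_mul, mul_smul]⟩ }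
  have : (1 : R) ∈ J := by
    rw [← Ideal.eq_top_iff_one]
    by_contra hJ
    obtain ⟨𝔪, h𝔪, hle⟩ := Ideal.exists_le_maximal J hJ
    obtain ⟨g, hg, H'⟩ := H 𝔪 h𝔪
    obtain ⟨n, hn⟩ := of_loc_exact g _ H' hω h
    exact hg (h𝔪.isPrime.mem_of_pow_mem n (hle hn))
  obtain ⟨η, h1, h2⟩ := this
  exact ⟨η, h1, by rw [h2, map_one, one_smul]⟩

end Pool.Agent.P.MP_824f38_ag.F
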