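import Pool.Agent.P.MP_824f38_ag.F.Exist
import Pool.Agent.P.MP_824f38_ag.F.Loc
import Pool.Agent.P.MP_824f38_ag.F.Chart
import Pool.Agent.P.MP_824f38_ag.N.XH1
import Pool.Agent.P.MP_824f38_ag.N.XC
import Pool.Agent.P.MP_824f38_ag.N.XB
import Pool.Agent.P.MP_824f38_ag.N.XDim
import Pool.Agent.P.MP_824f38_ag.H.Final

/-! The vanishing tables of varieties: necessary conditions and realisation. -/

set_option linter.unusedVariables false
set_option linter.unusedSectionVars false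
set_option linter.style.haveILetI false

namespace Pool.Agent.P.MP_824f38_ag.F

open N AlgebraicGeometry CategoryTheory

section Affine

variable {R : Type} [CommRing R] [Algebra ℂ R] [Algebra.FiniteType ℂ R]

/-- the cohomology does not depend on the hypercovering -/
theorem indep {X X' : Hyper R} (h : X.DescentR) (h' : X'.DescentR) (p q : ℕ) :
    X.HNonzero p (q + 1) ↔ X'.HNonzero p (q + 1) :=
  not_iff_not.1 ((h_succR X h p q).trans (h_succR X' h' p q).symm)

theorem aff_a {X : Hyper R} (h : X.DescentR) {n : ℕ} (hn : ringKrullDim R ≤ n) {p q : ℕ}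
    (H : X.HNonzero p (q + 1)) : p + (q + 1) ≤ n := by
  by_contra hlt
  exact (h_succR X h p q).2 (van_a (dimLe_of_le hn) (not_le.1 hlt)) H

theorem aff_b {X : Hyper R} (h : X.DescentR) {n : ℕ} (hn : ringKrullDim R = n) {p : ℕ}
    (hp : p ≤ n) : X.HNonzero p 0 := by
  obtain ⟨𝔭, _, t, ht⟩ := exists_indep hn
  exact h_zeroR X h (Ideal.Quotient.mkₐ ℂ 𝔭) (Ideal.Quotient.mkₐ_surjective ℂ 𝔭) ht hp

theorem aff_c {X : Hyper R} (h : X.DescentR) {n : ℕ} (hn : ringKrullDim R ≤ n) {p q : ℕ}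
    (H : X.HNonzero p (q + 1)) (e : p + (q + 1) = n) :
    ∃ p' q', p' < p ∧ p' + q' + 1 = n ∧ X.HNonzero p' q' := by
  by_contra hc
  refine (h_succR X h p q).2 (van_c (dimLe_of_le hn) e (by omega) fun p' q' h1 h2 => ?_) H
  obtain ⟨q', rfl⟩ : ∃ r, q' = r + 1 := ⟨q' - 1, by omega⟩
  exact (h_succR X h p' q').1 fun H' => hc ⟨p', _, h1, h2, H'⟩

theorem of_open {R' : Type} [CommRing R'] [Algebra ℂ R'] [Algebra.FiniteType ℂ R']
    (ψ : R →ₐ[ℂ] R') [IsOpenImmersion (Spec.map (CommRingCat.ofHom ψ.toRingHom))] {X : Hyper R}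
    (h : X.DescentR) {X' : Hyper R'} (h' : X'.DescentR) {p q : ℕ} (H : X'.HNonzero p (q + 1)) :
    X.HNonzero p (q + 1) := by
  by_contra hX
  refine exact_of_loc (fun 𝔪 h𝔪 => ?_) H
  obtain ⟨g, hg, e, he⟩ := open_loc ψ.toRingHom 𝔪
  refine ⟨ψ g, hg, ?_⟩
  letI : Algebra R (Localization.Away (ψ g)) := ((toAway (ψ g)).comp ψ).toRingHom.toAlgebra
  haveI : IsScalarTower ℂ R (Localization.Away (ψ g)) :=
    IsScalarTower.of_algHom ((toAway (ψ g)).comp ψ)
  haveI : IsLocalization.Away g (Localization.Away (ψ g)) :=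
    IsLocalization.isLocalization_of_algEquiv (Submonoid.powers g)
      (S := Localization.Away g) { e with commutes' := he }
  haveI := ft_away (ψ g)
  rw [indep (loc_descent X' _ _ h') (loc_descent X g _ h)]
  exact loc_exact g _ hX

end Affine

variable {Y : Scheme.{0}} {f : Y ⟶ Spec (CommRingCat.of ℂ)} [LocallyOfFiniteType f] {n : ℕ}

theorem nec_a (hn : topologicalKrullDim Y = n) {p q : ℕ} (H : DBNonzero f p (q + 1)) :
    p + (q + 1) ≤ n := by
  obtain ⟨R, _, _, j, _, e, X, h, H⟩ := H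
  haveI := chart_ft j e
  exact aff_a h (hn ▸ chart_dim j) H

theorem nec_b (hn : topologicalKrullDim Y = n) {p : ℕ} (hp : p ≤ n) : DBNonzero f p 0 := by
  obtain ⟨R, _, _, j, hj, e, hd⟩ := exists_chart f hn
  haveI := chart_ft j e
  obtain ⟨X, h⟩ := exists_hyper R
  exact ⟨R, _, _, j, hj, e, X, h, aff_b h hd hp⟩

theorem nec_c (hn : topologicalKrullDim Y = n) {p q : ℕ} (H : DBNonzero f p (q + 1))
    (e : p + (q + 1) = n) : ∃ p' q', p' < p ∧ p' + q' + 1 = n ∧ DBNonzero f p' q' := by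
  obtain ⟨R, _, _, j, hj, e', X, h, H⟩ := H
  haveI := chart_ft j e'
  obtain ⟨p', q', h1, h2, h3⟩ := aff_c h (hn ▸ chart_dim j) H e
  exact ⟨p', q', h1, h2, R, _, _, j, hj, e', X, h, h3⟩

theorem spec_iff {R : Type} [CommRing R] [Algebra ℂ R] [Algebra.FiniteType ℂ R] {X : Hyper R}
    (h : X.DescentR) (p q : ℕ) :
    DBNonzero (Spec.map (CommRingCat.ofHom (algebraMap ℂ R))) p (q + 1) ↔
      X.HNonzero p (q + 1) := by
  refine ⟨?_, fun H => ⟨R, _, _, 𝟙 _, inferInstance, Category.id_comp _, X, h, H⟩⟩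
  rintro ⟨R', _, _, j, hj, e, X', h', H⟩
  haveI := spec_ft (R := R)
  haveI := chart_ft j e
  obtain ⟨φ, rfl⟩ := Spec.map_surjective j
  rw [← Spec.map_comp] at e
  have e' := congrArg CommRingCat.Hom.hom (Spec.map_injective e)
  exact @of_open R _ _ _ R' _ _ _ ⟨φ.hom, DFunLike.congr_fun e'⟩ hj X h X' h' p q H

end Pool.Agent.P.MP_824f38_ag.F
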